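import Mathlib

namespace Pool.Agent.Results.MP_391eb1_al.Const

open Subgroup

/-- the set `LCM(G)`. -/
def LCM (G : Type) [Group G] : Set G :=
  {x | ∀ n : ℕ, 0 < n → ∀ y : G, orderOf (x ^ n * y) ∣ Nat.lcm (orderOf (x ^ n)) (orderOf y)}

/-- the ratio `|LCM(G)| / |G|`. -/
noncomputable def ratio (G : Type) [Group G] : ℝ := ((LCM G).ncard : ℝ) / Nat.card G

theorem ratio_congr {G H : Type} [Group G] [Group H] (e : G ≃* H) : ratio G = ratio H := by
  have : LCM G = e.toEquiv ⁻¹' LCM H := by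
    ext x
    simp only [LCM, Set.mem_setOf_eq, Set.mem_preimage]
    refine forall_congr' fun n => forall_congr' fun _ => ?_
    rw [e.surjective.forall]
    refine forall_congr' fun y => ?_
    simp only [MulEquiv.toEquiv_eq_coe, EquivLike.coe_coe, ← map_pow, ← map_mul, MulEquiv.orderOf_eq]
  rw [ratio, ratio, this, Nat.card_congr e.toEquiv, Set.ncard_preimage_of_injective_subset_range
    e.toEquiv.injective (by rw [e.toEquiv.range_eq_univ]; exact Set.subset_univ _)]

theorem core {G : Type} [Group G] [Finite G] {p : ℕ} [hp : Fact p.Prime] (hG : IsPGroup p G)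
    (hK : ∀ K : Subgroup G, K ≠ ⊤ → ∀ a ∈ K, ∀ b ∈ K, orderOf (a * b) ∣ Nat.lcm (orderOf a) (orderOf b))
    (x y : G) (h : ¬ orderOf (x * y) ∣ Nat.lcm (orderOf x) (orderOf y)) :
    ratio G ≤ 1 - 1 / (p : ℝ) ^ 2 := by
  set m := Nat.lcm (orderOf x) (orderOf y) with hm
  have hx : orderOf x ∣ m := Nat.dvd_lcm_left _ _
  have hy : orderOf y ∣ m := Nat.dvd_lcm_right _ _
  have hK' : ∀ K : Subgroup G, K ≠ ⊤ → ∀ a ∈ K, ∀ b ∈ K, orderOf a ∣ m → orderOf b ∣ m →
      orderOf (a * b) ∣ m := fun K h a ha b hb h1 h2 => (hK K h a ha b hb).trans (Nat.lcm_dvd h1 h2)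
  have hgen : closure {x, y} = ⊤ := by
    by_contra h1
    exact h (hK _ h1 x (subset_closure (by simp)) y (subset_closure (by simp)))
  let N := normalClosure {x ^ p, y ^ p, x * y * x⁻¹ * y⁻¹}
  haveI := hG.isNilpotent
  have hN : N ≤ frattini G := by
    rw [frattini, Order.radical]
    refine le_iInf₂ fun M hM => ?_
    haveI : M.Normal := NormalizerCondition.normal_of_coatom M normalizerCondition_of_isNilpotent hM
    haveI : Nontrivial (G ⧸ M) := QuotientGroup.nontrivial_iff.2 hM.1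
    obtain ⟨n, hn, hc⟩ := (hG.to_quotient M).nontrivial_iff_card.1 this
    obtain ⟨z, hz⟩ := exists_prime_orderOf_dvd_card' (G := G ⧸ M) p (hc ▸ dvd_pow_self p hn.ne')
    have h1 : (zpowers z).comap (QuotientGroup.mk' M) = ⊤ := by
      refine hM.2 _ (lt_of_le_of_ne (fun a ha => ?_) fun h => ?_)
      · show (a : G ⧸ M) ∈ zpowers z
        rw [(QuotientGroup.eq_one_iff _).2 ha]; exact one_mem _
      · obtain ⟨w, rfl⟩ := QuotientGroup.mk'_surjective M z
        have : w ∈ M := h ▸ mem_zpowers (QuotientGroup.mk' M w)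
        rw [QuotientGroup.mk'_apply, (QuotientGroup.eq_one_iff _).2 this, orderOf_one] at hz
        exact hp.out.one_lt.ne hz
    have h2 : ∀ g : G, ∃ i : ℤ, z ^ i = (g : G ⧸ M) := fun g =>
      mem_zpowers_iff.1 (show g ∈ (zpowers z).comap (QuotientGroup.mk' M) from h1 ▸ mem_top g)
    have h3 : ∀ g : G, g ^ p ∈ M := fun g => by
      obtain ⟨i, hi⟩ := h2 g
      rw [← QuotientGroup.eq_one_iff, QuotientGroup.mk_pow, ← hi, ← zpow_natCast, ← zpow_mul, mul_comm,
        zpow_mul, zpow_natCast, ← hz, pow_orderOf_eq_one, one_zpow]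
    refine normalClosure_le_normal ?_
    rintro _ (rfl | rfl | rfl)
    · exact h3 x
    · exact h3 y
    · obtain ⟨i, hi⟩ := h2 x
      obtain ⟨j, hj⟩ := h2 y
      show _ ∈ M
      rw [← QuotientGroup.eq_one_iff, QuotientGroup.mk_mul, QuotientGroup.mk_mul, QuotientGroup.mk_mul,
        QuotientGroup.mk_inv, QuotientGroup.mk_inv, ← hi, ← hj]
      group
  have hpr : ∀ g : G, N ⊔ zpowers g ≠ ⊤ := by
    intro g hg
    have h1 : zpowers g = ⊤ := frattini_nongenerating (by
      rw [eq_top_iff, ← hg, sup_comm]; exact sup_le_sup_left hN _)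
    obtain ⟨i, rfl⟩ := mem_zpowers_iff.1 (h1 ▸ mem_top x)
    obtain ⟨j, rfl⟩ := mem_zpowers_iff.1 (h1 ▸ mem_top y)
    exact h (((Commute.refl g).zpow_zpow i j).orderOf_mul_dvd_lcm)
  have hc : ∀ a g : G, orderOf (g * a * g⁻¹) = orderOf a := fun a g => by
    simpa using (MulAut.conj g).orderOf_eq a
  have h3 : x * y * x⁻¹ * y⁻¹ ∈ N := subset_normalClosure (by simp)
  have hNm : ∀ a ∈ N, orderOf a ∣ m := by
    intro a ha
    induction ha using closure_induction with
    | mem a ha =>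
      obtain ⟨b, hb, g, rfl⟩ : ∃ b ∈ ({x ^ p, y ^ p, x * y * x⁻¹ * y⁻¹} : Set G), ∃ g, a = g * b * g⁻¹ := by
        obtain ⟨b, hb, h⟩ := Group.mem_conjugatesOfSet_iff.1 ha
        obtain ⟨g, hg⟩ := isConj_iff.1 h
        exact ⟨b, hb, g, hg.symm⟩
      rw [hc]
      rcases hb with rfl | rfl | rfl
      · exact (orderOf_pow_dvd _).trans hx
      · exact (orderOf_pow_dvd _).trans hy
      · have e : x * y * x⁻¹ * y⁻¹ = x * (y * x⁻¹ * y⁻¹) := by group
        have e' : y * x⁻¹ * y⁻¹ = x⁻¹ * (x * y * x⁻¹ * y⁻¹) := by group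
        rw [e]
        refine hK' _ (hpr x) _ (mem_sup_right (mem_zpowers x)) _ ?_ hx (by rw [hc, orderOf_inv]; exact hx)
        rw [e']
        exact mul_mem (mem_sup_right (inv_mem (mem_zpowers x))) (mem_sup_left h3)
    | one => simp
    | mul a b ha hb h1 h2 => exact hK' _ (hpr 1) a (mem_sup_left ha) b (mem_sup_left hb) h1 h2
    | inv a _ h1 => rwa [orderOf_inv]
  have hbad : ∀ a ∈ N, x * a ∉ LCM G := by
    intro a ha hl
    have h1 := hl 1 one_pos y
    rw [pow_one] at h1
    have h2 := h1.trans (Nat.lcm_dvd (hK' _ (hpr x) x (mem_sup_right (mem_zpowers x)) a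
      (mem_sup_left ha) hx (hNm a ha)) hy)
    have h4 : y⁻¹ * a⁻¹ * y⁻¹⁻¹ ∈ N := (normalClosure_normal).conj_mem _ (inv_mem ha) _
    have e : x * y = x * a * y * (y⁻¹ * a⁻¹ * y⁻¹⁻¹) := by group
    have e' : x * a * y = x * y * (y⁻¹ * a⁻¹ * y⁻¹⁻¹)⁻¹ := by group
    apply h
    rw [e]
    refine hK' _ (hpr (x * y)) _ ?_ _ (mem_sup_left h4) h2 (hNm _ h4)
    rw [e']
    exact mul_mem (mem_sup_right (mem_zpowers _)) (mem_sup_left (inv_mem h4))
  have hidx : N.index ≤ p ^ 2 := by
    let f := QuotientGroup.mk' N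
    have a1 : f x ^ p = 1 := by
      rw [← map_pow]; exact (QuotientGroup.eq_one_iff _).2 (subset_normalClosure (by simp))
    have a2 : f y ^ p = 1 := by
      rw [← map_pow]; exact (QuotientGroup.eq_one_iff _).2 (subset_normalClosure (by simp))
    have a3 : Commute (f x) (f y) := by
      have := (QuotientGroup.eq_one_iff _).2 h3
      change f _ = 1 at this
      rw [map_mul, map_mul, map_mul, map_inv, map_inv, mul_inv_eq_one, mul_inv_eq_iff_eq_mul] at this
      exact this
    have a4 : ∀ g : G, ∃ i j : ℕ, f g = f x ^ i * f y ^ j := by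
      intro g
      have hg : g ∈ closure {x, y} := hgen ▸ mem_top g
      induction hg using closure_induction with
      | mem a ha =>
        rcases ha with rfl | rfl
        · exact ⟨1, 0, by simp⟩
        · exact ⟨0, 1, by simp⟩
      | one => exact ⟨0, 0, by simp⟩
      | mul a b _ _ h1 h2 =>
        obtain ⟨i, j, h1⟩ := h1
        obtain ⟨k, l, h2⟩ := h2
        refine ⟨i + k, j + l, ?_⟩
        rw [map_mul, h1, h2, pow_add, pow_add, (a3.pow_pow k j).symm.mul_mul_mul_comm]
      | inv a _ h1 =>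
        obtain ⟨i, j, h1⟩ := h1
        obtain ⟨q, hq⟩ := Nat.exists_eq_add_of_le' hp.out.pos
        refine ⟨i * q, j * q, ?_⟩
        rw [map_inv, h1, inv_eq_iff_mul_eq_one, (a3.pow_pow _ _).symm.mul_mul_mul_comm,
          ← pow_add, ← pow_add, add_comm i, add_comm j, ← Nat.mul_succ, ← Nat.mul_succ, Nat.succ_eq_add_one, ← hq, mul_comm i,
          mul_comm j, pow_mul, pow_mul, a1, a2]
        simp
    have a5 : Function.Surjective fun ij : Fin p × Fin p => f x ^ (ij.1 : ℕ) * f y ^ (ij.2 : ℕ) := by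
      intro q
      obtain ⟨g, rfl⟩ := QuotientGroup.mk'_surjective N q
      obtain ⟨i, j, h⟩ := a4 g
      exact ⟨(⟨i % p, Nat.mod_lt _ hp.out.pos⟩, ⟨j % p, Nat.mod_lt _ hp.out.pos⟩), by
        simp only [← pow_eq_pow_mod i a1, ← pow_eq_pow_mod j a2]; exact h.symm⟩
    simpa [sq, index] using Nat.card_le_card_of_surjective _ a5
  have c1 : (LCM G).ncard + Nat.card N ≤ Nat.card G := by
    have : ((fun a => x * a) '' (N : Set G)).ncard = Nat.card N := by
      rw [Set.ncard_image_of_injective _ (mul_right_injective x)]; rfl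
    rw [← this, ← Set.ncard_union_eq (Set.disjoint_right.2 (by rintro _ ⟨a, ha, rfl⟩; exact hbad a ha)),
      ← Set.ncard_univ]
    exact Set.ncard_le_ncard (Set.subset_univ _)
  have c2 : Nat.card G ≤ Nat.card N * p ^ 2 := by
    rw [← N.card_mul_index]; exact Nat.mul_le_mul_left _ hidx
  have c3 : (0 : ℝ) < Nat.card G := by exact_mod_cast Nat.card_pos
  have c4 : (0 : ℝ) < (p : ℝ) ^ 2 := by have := hp.out.pos; positivity
  have c5 : ((LCM G).ncard : ℝ) + Nat.card N ≤ Nat.card G := by exact_mod_cast c1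
  have c6 : (Nat.card G : ℝ) ≤ Nat.card N * (p : ℝ) ^ 2 := by exact_mod_cast c2
  rw [ratio, div_le_iff₀ c3, sub_mul, one_div, inv_mul_eq_div]
  have := (div_le_iff₀ c4).2 c6
  linarith

theorem result (p : ℕ) (hp : p.Prime) : ∃ c : ℝ, 0 < c ∧ c < 1 ∧
    ∀ (G : Type) [Group G] [Finite G], IsPGroup p G →
      (∀ (H : Subgroup G) (K : Subgroup H) [K.Normal], c < ratio (H ⧸ K)) → LCM G = Set.univ := by
  haveI := Fact.mk hp
  have h2 : (2 : ℝ) ≤ p := by exact_mod_cast hp.two_le
  refine ⟨1 - 1 / (p : ℝ) ^ 2, ?_, ?_, fun G _ _ hG h => ?_⟩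
  · rw [sub_pos, div_lt_one (by positivity)]; nlinarith
  · have : 0 < 1 / (p : ℝ) ^ 2 := by positivity
    linarith
  have key : ∀ H : Subgroup G, ∀ a ∈ H, ∀ b ∈ H, orderOf (a * b) ∣ Nat.lcm (orderOf a) (orderOf b) := by
    intro H
    induction H using WellFoundedLT.induction with
    | ind H ih =>
      intro a ha b hb
      by_contra hab
      refine absurd (h H ⊥) (not_lt.2 ?_)
      rw [ratio_congr QuotientGroup.quotientBot]
      refine core (hG.to_subgroup H) (fun K hK u hu v hv => ?_) ⟨a, ha⟩ ⟨b, hb⟩ ?_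
      · have := ih (K.map H.subtype) (lt_of_le_of_ne (map_subtype_le K) fun e => hK (map_injective H.subtype_injective (by
          rw [e, ← MonoidHom.range_eq_map, range_subtype]))) u ⟨u, hu, rfl⟩ v ⟨v, hv, rfl⟩
        rwa [← coe_mul, orderOf_coe, orderOf_coe, orderOf_coe] at this
      · simpa only [← orderOf_coe, coe_mul] using hab
  exact Set.eq_univ_of_forall fun x n _ y => key ⊤ _ trivial _ trivial

end Pool.Agent.Results.MP_391eb1_al.Const
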